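import Pool.Agent.Helper861_Ann.Main

/-!
# A Cayley graph whose metric-functional boundary has an infinite annihilator

The answer to Q1 of MP_9cde6c_al is yes. Let `P` be the first Grigorchuk group, generated by `a` and
the Klein four-group `V = {1, b, c, d}`, let `H` be the stabiliser of the ray `o` fixed by `V`, and
let `X = P / H` be its orbit. The sections beside the ray, followed by the character `b, c ↦ 1`,
`a, d ↦ 0` of `P`, give a homomorphism `χ = (χ_m) : H → ⨁_m F_2` which vanishes on `V`. For
`i = 0, 1, 2` let `e_i` be a lamp at `o` on which `h ∈ H` acts by `h e_i = e_i + ∑_k χ_{3k+i}(h) z_k`,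
with `z_k` fixed by `P`. The lamps generate an `F_2[P]`-module `M`, and the group is `G = M ⋊ P` with
the finite generating set `S = K ∪ K a K`, where `K = ⟨e_0, e_1, e_2⟩ × V` is a finite subgroup.

An element of length `n` is given by a path `v_0 a v_1 a ⋯` of length `n` in `P` together with lamps
switched along the path. If two points `g, g h` of the path satisfy `h ∈ H` and the last nonzero
`χ_m(h)` has `m = 3k + i`, then switching `e_i` at both points gives `z_k` plus a combination of
`z_j`, `j < k`, at no cost. By the self-similarity of `P`, all but finitely many elements of `P` can
only be reached by paths having such points for the given `k` (`finite_NP`). So multiplication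
by `z_k` preserves the length of all but finitely many elements, that is, all the `z_k` lie in the
annihilator.

Here sites are sequences `ℕ → Bool` with `o = 0`, the elements of `M` are functions on the set
`Ph = ℕ × (X → Fin 3 → F_2)`, and `G` is a group of permutations of `Ph × F_2`.
-/

set_option autoImplicit false

namespace Pool.Agent.Results.MP_9cde6c_al.InfiniteAnnihilator

open Pool.Agent.Helper861_Ann

/-- There are a group `G` and a finite symmetric generating set `S` of `G` such that the annihilator
of the metric-functional boundary of the Cayley graph is infinite. -/
theorem result : ∃ (G : Type) (_ : Group G) (S : Set G),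
    S.Finite ∧ (1 : G) ∉ S ∧ (∀ s ∈ S, s⁻¹ ∈ S) ∧ Subgroup.closure S = ⊤ ∧
      (annihilator S).Infinite :=
  ⟨G0, inferInstance, SG, SG_finite, one_notMem_SG, SG_inv, closure_SG, annihilator_infinite⟩

end Pool.Agent.Results.MP_9cde6c_al.InfiniteAnnihilator
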